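import Pool.Agent.RCD.Low2
import Pool.Agent.RCD.AlmostAll

/-!
# Switching classes determined by any `r` of their cards

MP_87adae_co, Q1 (partial). A class is determined by any `r ≥ 3` of its cards if at most
`(r - 2) / 2` of its vertices are moved by isomorphisms between subclasses on at least `n - 2`
vertices. This holds for all but a proportion `2 ^ (- r n / 40)` of the classes; for `r = n`: all
but a proportion `2 ^ (- n ^ 2 / 40)` of the classes are reconstructible. For `2 r < n` a
proportion of at least `2 ^ (- 2 r n)` of the classes is not determined by some `r` cards. All but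
a proportion `4 n ^ 12 / 2 ^ ((n - 11) / 3)` are determined by any three and by no two cards.
-/

open Finset

namespace Pool.Agent.Results.MP_87adae_co.AnyCards

open SwR RCD

/-- The criterion, its frequency, and the converse bound. -/
theorem result :
    (∀ (n r : ℕ) (X : SimpleGraph (Fin n)), 5 ≤ n → 3 ≤ r → 2 * (moved X).ncard + 2 ≤ r →
      RCards r X) ∧
    (∀ n r : ℕ, 4096 ≤ n → 3 ≤ r → r ≤ n →
      (Nat.card {c : Classes n // ¬ (FewMoved r c ∧ AnyCards r c ∧ Recon c)} : ℝ) ≤
        (2 : ℝ) ^ (-((r : ℝ) * n / 40)) * Nat.card (Classes n)) ∧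
    (∀ n r : ℕ, 4096 ≤ n → 2 ≤ r → 2 * r < n →
      (2 : ℝ) ^ (-(2 * (r : ℝ) * n)) * Nat.card (Classes n) ≤
        (Nat.card {c : Classes n // ¬ AnyCards r c} : ℝ)) ∧
    (∀ n : ℕ, 1 ≤ n →
      (Nat.card {c : Classes n // ¬ (AnyCards 3 c ∧ NoTwoCards c ∧ Recon c)} : ℝ) ≤
        4 * ((n : ℝ) ^ 12 / 2 ^ ((n - 11) / 3)) * Nat.card (Classes n)) := by
  classical
  refine ⟨?_, ?_, ?_, ?_⟩
  · intro n r X hn hr h
    exact Few.rcards (by simpa using hn) hr h
  · intro n r hn hr hrn
    have h1 := unlabelled_bound n r hn hr hrn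
    have key : (Nat.card {c : Cls n // ¬ (FewMoved r c ∧ AnyCards r c ∧ Recon c)} : ℝ) ≤
        (2 : ℝ) ^ (-((r : ℝ) * n / 40)) * Nat.card (Cls n) := by
      rw [Nat.card_eq_fintype_card, Nat.card_eq_fintype_card, Fintype.card_subtype]
      refine le_trans ?_ h1
      have h3 : ∀ c : Cls n, ClassFew r c → FewMoved r c ∧ AnyCards r c ∧ Recon c := by
        intro c hf
        have h4 : AnyCards r c := fun X hX =>
          Few.rcards (by rw [Fintype.card_fin]; omega) hr (hf X hX)
        exact ⟨fun X hX => hf X hX, h4, fun X Y hX hY =>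
          reconstructible_of_rcards (by simpa using hrn) (h4 X hX) Y hY⟩
      have h2 : ((univ : Finset (Cls n)).filter fun c =>
          ¬ (FewMoved r c ∧ AnyCards r c ∧ Recon c)).card ≤
          ((univ : Finset (Cls n)).filter fun c => ¬ ClassFew r c).card :=
        card_le_card fun c hc => mem_filter.2
          ⟨mem_univ (α := Cls n) c, fun hf => (mem_filter.1 hc).2 (h3 c hf)⟩
      exact_mod_cast h2
    exact key
  · intro n r hn hr hrn
    have h1 := unlabelled_low hn hr hrn
    have key : (2 : ℝ) ^ (-(2 * (r : ℝ) * n)) * Nat.card (Cls n) ≤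
        (Nat.card {c : Cls n // ¬ ClassRCards r c} : ℝ) := by
      rw [Nat.card_eq_fintype_card, Nat.card_eq_fintype_card, Fintype.card_subtype]
      exact h1
    exact key
  · intro n hn
    have h1 := AlmostAll.unlabelled_aux n hn
    have key : (Nat.card {c : Cls n // ¬ (AnyCards 3 c ∧ NoTwoCards c ∧ Recon c)} : ℝ) ≤
        4 * ((n : ℝ) ^ 12 / 2 ^ ((n - 11) / 3)) * Nat.card (Cls n) := by
      rw [Nat.card_eq_fintype_card, Nat.card_eq_fintype_card, Fintype.card_subtype]
      refine le_trans ?_ h1
      have h3 : ∀ c : Cls n, AlmostAll.TypicalClass c →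
          AnyCards 3 c ∧ NoTwoCards c ∧ Recon c := by
        intro c hc
        exact ⟨fun X hX => (hc X hX).2.1, fun X hX => (hc X hX).2.2,
          fun X Y hX hY => (hc X hX).1 Y hY⟩
      have h2 : ((univ : Finset (Cls n)).filter fun c =>
          ¬ (AnyCards 3 c ∧ NoTwoCards c ∧ Recon c)).card ≤
          ((univ : Finset (Cls n)).filter fun c => ¬ AlmostAll.TypicalClass c).card :=
        card_le_card fun c hc => mem_filter.2
          ⟨mem_univ (α := Cls n) c, fun hf => (mem_filter.1 hc).2 (h3 c hf)⟩
      exact_mod_cast h2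
    exact key

end Pool.Agent.Results.MP_87adae_co.AnyCards
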