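import Pool.Agent.RGC.Main

/-!
# Reconstruction of regular, amply regular and other structured switching classes

Partial answer to Q1 of MP_87adae_co.
-/

set_option autoImplicit false

namespace Pool.Agent.Results.MP_87adae_co.RegularClasses

open RGC

/-- Let `G` be a graph on `n` vertices. Its switching class is reconstructible in each of the
following cases. (1) `n ≥ 4` is even and the numbers of odd triples through the vertices have the
same parity; (2) `n ≥ 10` is even and the degrees of `G` have the same parity (for example `G`
regular); (3) `n ≥ 10` and `G` is amply regular (for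
example strongly regular or distance-regular); (4) `n ≥ 10` is odd and all codegrees `c` for which
`c + 1` is also a codegree have the same parity; (5) `n ≥ 10` is odd, `G` is regular, and some card
`G - v` does not have the Laplacian eigenvalue `(n - 1) / 2`; (6) `n ≥ 10` is prime and the
automorphism group of the class is transitive; (7) `n ≥ 10` and for some vertex `v` every half cut
(partition of the other vertices into two nonempty parts such that exactly half of the pairs between
the parts form odd triples with `v`) contains a forced pair; (8) `n ≥ 10`, no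
codegree is `0` or `n - 2`, and for some `u ≠ v` with codegree different from `(n - 2) / 2` every
isomorphism of the class on `V ∖ {u, v}` onto a subclass extends to an automorphism of the class.
(9) So is the class of a Cayley graph of an abelian group of odd order `n ≥ 10` whose eigenvalues at
nontrivial characters are distinct up to inversion. -/
theorem result :
    (∀ (V : Type) [Fintype V] (G : SimpleGraph V),
      (Even (Fintype.card V) → 4 ≤ Fintype.card V →
        (∀ u v, oddThrough G u % 2 = oddThrough G v % 2) → Recon G) ∧
      (10 ≤ Fintype.card V → Even (Fintype.card V) →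
        (∀ u v, (G.neighborSet u).ncard % 2 = (G.neighborSet v).ncard % 2) → Recon G) ∧
      (10 ≤ Fintype.card V → ∀ k l m, AmplyRegular G k l m → Recon G) ∧
      (10 ≤ Fintype.card V → Odd (Fintype.card V) →
        ((∀ a b c d, a ≠ b → c ≠ d → codeg G c d = codeg G a b + 1 → Even (codeg G a b)) ∨
          (∀ a b c d, a ≠ b → c ≠ d → codeg G c d = codeg G a b + 1 → Odd (codeg G a b))) →
        Recon G) ∧
      (10 ≤ Fintype.card V → Odd (Fintype.card V) →
        ∀ k, (∀ v, (G.neighborSet v).ncard = k) →
          ∀ v, ¬ LaplaceEigenvalue G v (((Fintype.card V : ℝ) - 1) / 2) → Recon G) ∧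
      (10 ≤ Fintype.card V → (Fintype.card V).Prime →
        (∀ u v, ∃ g : Equiv.Perm V,
          (∀ a b c, OddTriple G (g a) (g b) (g c) ↔ OddTriple G a b c) ∧ g u = v) → Recon G) ∧
      (10 ≤ Fintype.card V →
        ∀ v, (∀ D : Set V, v ∉ D → D.Nonempty → (∃ b, b ≠ v ∧ b ∉ D) → HalfCut G v D →
          ∃ a ∈ D, ∃ b, b ∉ D ∧ Forced G v a b) → Recon G) ∧
      (10 ≤ Fintype.card V →
        (∀ a b, a ≠ b → codeg G a b ≠ 0 ∧ codeg G a b + 2 ≠ Fintype.card V) →
          ∀ u v, u ≠ v → 2 * codeg G u v + 2 ≠ Fintype.card V → Extends G u v → Recon G)) ∧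
    (∀ (A : Type) [AddCommGroup A] [Fintype A] (D : Set A),
      10 ≤ Fintype.card A → Odd (Fintype.card A) →
        (∀ χ ψ : AddChar A ℂ, χ ≠ 1 → ψ ≠ 1 → cayEig D χ = cayEig D ψ → ψ = χ ∨ ψ = χ⁻¹) →
          Recon (cay D)) := by
  refine ⟨fun V _ G => ⟨?_, ?_, ?_, ?_, ?_, ?_, ?_, ?_⟩, ?_⟩
  · exact fun hV h4 h => recon_even G hV h4 h
  · exact fun hn hV h => recon_degrees G hV hn h
  · exact fun hn k l m h => recon_amply G hn k l m h
  · exact fun hn ho h => recon_gap G hn ho h
  · exact fun hn ho k hk v hv => recon_lap G hn ho k hk v hv
  · exact fun hn hp h => recon_prime G hn hp h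
  · exact fun hn v hv => recon_crit G hn v hv
  · exact fun hn h1 u v huv h2 h3 => recon_glue G hn u v huv h1 h2 h3
  · exact fun A _ _ D hn ho hd H h => abl hn ho D hd h

end Pool.Agent.Results.MP_87adae_co.RegularClasses
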