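import Pool.Agent.Helper36.RT.Main

/-!
# Transfer between reconstruction of switching classes and of graphs

Problem MP_87adae_co (reconstruction of switching classes).
-/

set_option autoImplicit false

namespace Pool.Agent.Results.MP_87adae_co.RigidTransfer

open Finset Pool.Agent.Helper36.RT

/-- Let `V` be a finite set with `n ≥ 4` elements.
(1) A graph on `V` with all degrees less than `(n - 2) / 4` is thin, and so is a graph with `m`
edges and all degrees less than `(n - a - 1) / 2` if `2 m < a (n - 2 - a)`; a graph which is thin
or whose complement is thin is rigid.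
For every rigid graph `G` on `V`:
(2) for every set `S` of vertices and every bijection `π` from `V` to the vertex set of a graph
`H`, the cards `G - v` and `H - π v` are switching equivalent for all `v ∈ S` exactly when some
`H' = H^τ` has `G - v ≅ H' - π v` for all `v ∈ S`;
(3) for every set `S` of at least two vertices, the cards at `S` determine the switching class of
`G` exactly when they determine the graph `G`;
(4) if `G` has a vertex `v` such that no neighbour of `v` has degree one more than a
non-neighbour of `v` (for instance if no two degrees of `G` differ by exactly one, or if `G` has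
an isolated vertex), then the switching class of `G` is reconstructible. -/
theorem result {V : Type} [Finite V] (hn : 4 ≤ Nat.card V) :
    (∀ G : SimpleGraph V, (∀ v, 4 * (G.neighborSet v).ncard + 2 < Nat.card V) ∨
      (∃ a, (∀ v, 2 * (G.neighborSet v).ncard + a + 1 < Nat.card V) ∧
        2 * G.edgeSet.ncard + a * (a + 2) < a * Nat.card V) → Thin G) ∧
    (∀ G : SimpleGraph V, Thin G ∨ Thin Gᶜ → Rigid G) ∧
    ∀ G : SimpleGraph V, Rigid G →
      (∀ (S : Set V) (W : Type) (H : SimpleGraph W) (π : V ≃ W),
        (∀ v ∈ S, SwEq (cardOf G v) (cardOf H (π v))) ↔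
          ∃ τ : Set W, ∀ v ∈ S, Nonempty (cardOf G v ≃g cardOf (sw H τ) (π v))) ∧
      (∀ S : Set V, S.Nontrivial → (ClassDetermined G S ↔ GraphDetermined G S)) ∧
      ((∃ v, ∀ x y, G.Adj v x → y ≠ v → ¬ G.Adj v y →
          (G.neighborSet x).ncard ≠ (G.neighborSet y).ncard + 1) →
        ClassDetermined G Set.univ) := by
  classical
  have := Fintype.ofFinite V
  have hn' := hn
  rw [Nat.card_eq_fintype_card] at hn'
  refine ⟨fun G hG => ?_, fun G hG => ?_,
    fun G hG => ⟨transfer hG hn, fun S hS => determined_iff hG hn hS, ?_⟩⟩
  · rcases hG with hG | ⟨a, hG, hm⟩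
    · obtain ⟨v, -, hv⟩ := Finset.exists_max_image (univ : Finset V)
        (fun v => (G.neighborSet v).ncard)
        (univ_nonempty_iff.2 (Fintype.card_pos_iff.1 (by omega)))
      refine thin_of_small_degree (k := (G.neighborSet v).ncard) (fun w => ?_) ?_
      · rw [dg_ncard]
        exact hv w (mem_univ w)
      · rw [← Nat.card_eq_fintype_card]
        exact hG v
    · rw [Nat.card_eq_fintype_card] at hm
      refine thin_of_few_edges (a := a) (fun v => ?_) hm
      rw [dg_ncard, ← Nat.card_eq_fintype_card]
      exact hG v
  · rcases hG with hG | hG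
    · exact hG.rigid
    · exact hG.rigid.of_compl
  · rintro ⟨v, hv⟩
    have hu : (Set.univ : Set V).Nontrivial := by
      have : Nontrivial V := Fintype.one_lt_card_iff_nontrivial.1 (by omega)
      exact Set.nontrivial_univ
    refine (determined_iff hG hn hu).2 (rec_of_gap (by omega) (v := v) fun x y h1 h2 h3 => ?_)
    rw [dg_ncard, dg_ncard]
    exact hv x y h1 h2 h3

end Pool.Agent.Results.MP_87adae_co.RigidTransfer
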