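import Pool.Agent.SWS.Main

/-!
# Reconstruction of switching classes from their spectra

Partial answer to Q1 of MP_87adae_co.
-/

set_option autoImplicit false

namespace Pool.Agent.Results.MP_87adae_co.SpectralClasses

open Polynomial RGC SWS
open scoped Classical

/-- Let `G` be a graph on `n` vertices, `S` its Seidel matrix, `P` the characteristic polynomial of
`S` (over `ℚ`), `A` its adjacency matrix. The switching class of `G` is reconstructible in each
of the following cases. (1) `n ≥ 10` and `S ^ 3` is a combination of `S ^ 2`, `S`, `1` (at most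
three Seidel eigenvalues); (2) `n ≥ 10` is odd, `G` is walk-regular or the automorphism group of the
class is transitive, and `P' / gcd(P, P')` is not a product of three nonconstant polynomials over `ℚ`;
(3) `n ≥ 10`, `G` is regular and `A ^ 3` is a combination of `A ^ 2`, `A`, `1`, `J` (for
example `G` connected and regular with at most four distinct eigenvalues); (4) `P = (x - a) ^ k g` with
`g` irreducible over `ℚ`, and `k ≥ 3` or `n ≥ 10` is odd and `G` is regular. -/
theorem result (V : Type) [Fintype V] (G : SimpleGraph V) :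
    (10 ≤ Fintype.card V →
      (∃ x y z : ℝ, Sd G ^ 3 = x • Sd G ^ 2 + y • Sd G + z • (1 : Matrix V V ℝ)) → Recon G) ∧
    (10 ≤ Fintype.card V → Odd (Fintype.card V) →
      (WalkRegular G ∨ ∀ u v, ∃ g : Equiv.Perm V,
        (∀ a b c, OddTriple G (g a) (g b) (g c) ↔ OddTriple G a b c) ∧ g u = v) →
      (∀ a b c : ℚ[X], a * b * c *
        EuclideanDomain.gcd (SQ G).charpoly (derivative (SQ G).charpoly) ∣
          derivative (SQ G).charpoly → IsUnit a ∨ IsUnit b ∨ IsUnit c) → Recon G) ∧
    (10 ≤ Fintype.card V → (∀ u v, (G.neighborSet u).ncard = (G.neighborSet v).ncard) →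
      (∃ x y z t : ℝ, AR G ^ 3 = x • AR G ^ 2 + y • AR G + z • (1 : Matrix V V ℝ) +
        t • (Matrix.of fun _ _ => (1 : ℝ))) → Recon G) ∧
    (∀ (a : ℚ) (k : ℕ) (g : ℚ[X]), Irreducible g → (SQ G).charpoly = (X - C a) ^ k * g →
      (3 ≤ k ∨ (10 ≤ Fintype.card V ∧ Odd (Fintype.card V) ∧
        ∀ u v, (G.neighborSet u).ncard = (G.neighborSet v).ncard)) → Recon G) := by
  refine ⟨?_, ?_, ?_, ?_⟩
  · rintro hn ⟨x, y, z, h⟩
    refine recon_three hn (e1 := x) (e2 := y) (e3 := z) ?_
    unfold Cub
    rw [h, zero_smul, add_zero]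
  · rintro hn ho (hw | ht) hf
    · exact recon_wr hn ho hw hf
    · exact recon_tr hn ho ht hf
  · rintro hn hr ⟨x, y, z, t, h⟩
    exact recon_cubic hn hr h
  · exact fun a k g hg hP hk => recon_tutte hg hP hk

end Pool.Agent.Results.MP_87adae_co.SpectralClasses
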